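import Mathlib

set_option autoImplicit false

namespace Pool.Agent.H.MP_1220fe_lc

open Matrix

/-- evaluation of a word in a group -/
def ev {α : Type} {H : Type} [Group H] (f : α → H) (w : List (α × Bool)) : H :=
  (w.map fun p => cond p.2 (f p.1) (f p.1)⁻¹).prod

section ev
variable {α : Type} {H : Type} [Group H] (f : α → H)

theorem ev_nil : ev f [] = 1 := rfl

theorem ev_append (u v : List (α × Bool)) : ev f (u ++ v) = ev f u * ev f v := by
  simp [ev]

theorem ev_cons (p : α × Bool) (v : List (α × Bool)) :
    ev f (p :: v) = cond p.2 (f p.1) (f p.1)⁻¹ * ev f v := by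
  simp [ev]

theorem ev_invRev (u : List (α × Bool)) : ev f (FreeGroup.invRev u) = (ev f u)⁻¹ := by
  induction u with
  | nil => simp [FreeGroup.invRev, ev]
  | cons p u ih =>
    have h : FreeGroup.invRev (p :: u) = FreeGroup.invRev u ++ [(p.1, !p.2)] := by
      simp [FreeGroup.invRev]
    rw [h, ev_append, ih, ev_cons f p u, _root_.mul_inv_rev]
    congr 1
    rcases p with ⟨a, b⟩
    cases b <;> simp [ev]

end ev

/-- commutator of group elements -/
def cm {H : Type} [Group H] (a b : H) : H := a * b * a⁻¹ * b⁻¹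

/-- commutator of words -/
def comm {α : Type} (u v : List (α × Bool)) : List (α × Bool) :=
  u ++ v ++ FreeGroup.invRev u ++ FreeGroup.invRev v

theorem ev_comm {α : Type} {H : Type} [Group H] (f : α → H) (u v : List (α × Bool)) :
    ev f (comm u v) = cm (ev f u) (ev f v) := by
  simp [comm, ev_append, ev_invRev, cm, mul_assoc]

/-- the set of generators, as `Fin 36` -/
def gcode : (Fin 3 × Fin 3 × Fin 4) ≃ Fin 36 :=
  (Equiv.prodCongr (Equiv.refl _) finProdFinEquiv).trans finProdFinEquiv

/-- the words -/
abbrev Wd := List (Fin 36 × Bool)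

/-- the word consisting of one generator `e_ij(g)` -/
def gw (i j : Fin 3) (g : Fin 4) : Wd := [(gcode (i, j, g), true)]

/-- the third index -/
def third (i j : Fin 3) : Fin 3 := -(i + j)

/-- word for `e_ij(y^n z)` -/
def Uw (i j : Fin 3) : ℕ → Wd
  | 0 => gw i j 3
  | n + 1 => comm (gw i (third i j) 2) (comm (gw (third i j) i 0) (Uw i j n))

/-- word for `e_ij(x y^n z)` -/
def Pw (n : ℕ) (i j : Fin 3) : Wd := comm (gw i (third i j) 1) (Uw (third i j) j n)

/-- word for `e_ij(x y^n z g)` -/
def Ww (n : ℕ) (s : Fin 36) : Wd :=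
  if (gcode.symm s).1 = (gcode.symm s).2.1 then [] else
    comm (Pw n (gcode.symm s).1 (third (gcode.symm s).1 (gcode.symm s).2.1))
      (gw (third (gcode.symm s).1 (gcode.symm s).2.1) (gcode.symm s).2.1 (gcode.symm s).2.2)

section model

variable {R : Type} [Ring R]

/-- elementary matrices -/
def Em (i j : Fin 3) (a : R) : (Matrix (Fin 3) (Fin 3) R)ˣ :=
  if h : i = j then 1 else
    { val := 1 + single i j a
      inv := 1 - single i j a
      val_inv := by
        have : single i j a * single i j a = (0 : Matrix (Fin 3) (Fin 3) R) :=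
          single_mul_single_of_ne _ _ _ _ (Ne.symm h) _
        simp [mul_sub, add_mul, this]
      inv_val := by
        have : single i j a * single i j a = (0 : Matrix (Fin 3) (Fin 3) R) :=
          single_mul_single_of_ne _ _ _ _ (Ne.symm h) _
        simp [mul_add, sub_mul, this] }

theorem Em_val {i j : Fin 3} (h : i ≠ j) (a : R) :
    (Em i j a : Matrix (Fin 3) (Fin 3) R) = 1 + single i j a := by
  simp [Em, h]

theorem Em_inv {i j : Fin 3} (h : i ≠ j) (a : R) :
    ((Em i j a)⁻¹ : (Matrix (Fin 3) (Fin 3) R)ˣ).val = 1 - single i j a := by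
  simp [Em, h]

theorem Em_zero (i j : Fin 3) : Em i j (0 : R) = 1 := by
  by_cases h : i = j
  · simp [Em, h]
  · ext1
    rw [Em_val h]; simp

theorem Em_comm {i j k : Fin 3} (hij : i ≠ j) (hjk : j ≠ k) (hik : i ≠ k) (a b : R) :
    cm (Em i j a) (Em j k b) = Em i k (a * b) := by
  rw [cm]
  ext1
  rw [Units.val_mul, Units.val_mul, Units.val_mul, Em_val hij, Em_val hjk, Em_inv hij, Em_inv hjk,
    Em_val hik]
  have hAA : single i j a * single i j a = (0 : Matrix (Fin 3) (Fin 3) R) :=
    single_mul_single_of_ne _ _ _ _ (Ne.symm hij) _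
  have hBB : single j k b * single j k b = (0 : Matrix (Fin 3) (Fin 3) R) :=
    single_mul_single_of_ne _ _ _ _ (Ne.symm hjk) _
  have hBA : single j k b * single i j a = (0 : Matrix (Fin 3) (Fin 3) R) :=
    single_mul_single_of_ne _ _ _ _ (Ne.symm hik) _
  have hAB : single i j a * single j k b = (single i k (a * b) : Matrix (Fin 3) (Fin 3) R) :=
    single_mul_single_same _ _ _ _ _
  rw [← hAB]
  generalize single i j a = A at *
  generalize single j k b = B at *
  have h1 : (1 + A) * (1 + B) = 1 + A + B + A * B := by noncomm_ring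
  have h2 : (1 + A) * (1 + B) * (1 - A) = 1 + B + A * B := by
    rw [h1]
    have : (1 + A + B + A * B) * (1 - A) = 1 + A + B + A * B - A - A * A - B * A - A * (B * A) := by
      noncomm_ring
    rw [this, hAA, hBA]; noncomm_ring
  rw [h2]
  have : (1 + B + A * B) * (1 - B) = 1 + B + A * B - B - B * B - A * (B * B) := by noncomm_ring
  rw [this, hBB]; noncomm_ring

end model

theorem third_ne_left : ∀ {i j : Fin 3}, i ≠ j → i ≠ third i j := by decide
theorem third_ne_right : ∀ {i j : Fin 3}, i ≠ j → third i j ≠ j := by decide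
theorem third_third : ∀ {i j : Fin 3}, i ≠ j → third (third i j) j = i := by decide
theorem third_third' : ∀ {i j : Fin 3}, i ≠ j → third i (third i j) = j := by decide

section words
variable {R : Type} [Ring R] (x y z : R)

/-- the values of the four ring generators -/
def gval (x y z : R) : Fin 4 → R := ![1, x, y, z]

/-- the assignment of matrices to generators -/
def fgen (x y z : R) (s : Fin 36) : (Matrix (Fin 3) (Fin 3) R)ˣ :=
  Em (gcode.symm s).1 (gcode.symm s).2.1 (gval x y z (gcode.symm s).2.2)

theorem ev_gw (i j : Fin 3) (g : Fin 4) :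
    ev (fgen x y z) (gw i j g) = Em i j (gval x y z g) := by
  simp [ev, gw, fgen]

theorem ev_Uw {i j : Fin 3} (h : i ≠ j) (n : ℕ) :
    ev (fgen x y z) (Uw i j n) = Em i j (y ^ n * z) := by
  induction n with
  | zero => simp [Uw, ev_gw, gval]
  | succ n ih =>
    rw [Uw, ev_comm, ev_comm, ih, ev_gw, ev_gw,
      Em_comm (third_ne_left h).symm h (third_ne_right h),
      Em_comm (third_ne_left h) (third_ne_right h) h]
    simp [gval, pow_succ', mul_assoc]

theorem ev_Pw {i j : Fin 3} (h : i ≠ j) (n : ℕ) :
    ev (fgen x y z) (Pw n i j) = Em i j (x * (y ^ n * z)) := by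
  rw [Pw, ev_comm, ev_gw, ev_Uw _ _ _ (third_ne_right h),
    Em_comm (third_ne_left h) (third_ne_right h) h]
  simp [gval]

theorem ev_Ww (n : ℕ) (s : Fin 36) :
    ev (fgen x y z) (Ww n s) =
      Em (gcode.symm s).1 (gcode.symm s).2.1
        ((x * (y ^ n * z)) * gval x y z (gcode.symm s).2.2) := by
  unfold Ww
  split_ifs with h
  · simp [ev, Em, h]
  · rw [ev_comm, ev_gw, ev_Pw _ _ _ (third_ne_left h),
      Em_comm (third_ne_left h) (third_ne_right h) h]

end words

/-- shift-like operators on `List ℕ → ℤ` -/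
abbrev V := List ℕ → ℤ

/-- evaluation at first coordinate 0 -/
def xop : Module.End ℤ V where
  toFun f := fun l => f (0 :: l)
  map_add' _ _ := rfl
  map_smul' _ _ := rfl

/-- shift of the first coordinate -/
def yop : Module.End ℤ V where
  toFun f := fun l => match l with
    | [] => 0
    | m :: l => f ((m + 1) :: l)
  map_add' f g := by
    funext l; cases l <;> simp
  map_smul' a f := by
    funext l; cases l <;> simp

open Classical in
/-- diagonal embedding, cut to a set of first coordinates -/
noncomputable def zop (p : ℕ → Prop) : Module.End ℤ V where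
  toFun f := fun l => match l with
    | [] => 0
    | m :: l => if p m then f l else 0
  map_add' f g := by
    funext l; cases l
    · simp
    · simp only [Pi.add_apply]; split_ifs <;> simp
  map_smul' a f := by
    funext l; cases l
    · simp
    · simp only [Pi.smul_apply, RingHom.id_apply]; split_ifs <;> simp

theorem yop_pow (n : ℕ) (f : V) (m : ℕ) (l : List ℕ) :
    ((yop ^ n) f) (m :: l) = f ((m + n) :: l) := by
  induction n generalizing f m with
  | zero => simp
  | succ n ih =>
    rw [pow_succ, Module.End.mul_apply, ih]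
    show f ((m + n + 1) :: l) = _
    rfl

open Classical in
theorem rho_apply (p : ℕ → Prop) (n : ℕ) (f : V) (l : List ℕ) :
    (xop * (yop ^ n * zop p)) f l = if p n then f l else 0 := by
  rw [Module.End.mul_apply, Module.End.mul_apply]
  show ((yop ^ n) ((zop p) f)) (0 :: l) = _
  rw [yop_pow]
  simp [zop]

theorem rho_pos (p : ℕ → Prop) (n : ℕ) (h : p n) : xop * (yop ^ n * zop p) = 1 := by
  ext f l
  rw [rho_apply]; simp [h]

theorem rho_neg (p : ℕ → Prop) (n : ℕ) (h : ¬ p n) : xop * (yop ^ n * zop p) = 0 := by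
  ext f l
  rw [rho_apply]; simp [h]

/-- **Model.** For every predicate `p` there is a nontrivial group in which the words `Ww n s`
evaluate to the generator `s` if `p n` and to `1` if not. -/
theorem model (p : ℕ → Prop) : ∃ (H : Type) (_ : Group H) (f : Fin 36 → H),
    (∃ s, f s ≠ 1) ∧ (∀ n s, p n → ev f (Ww n s) = f s) ∧ (∀ n s, ¬ p n → ev f (Ww n s) = 1) := by
  refine ⟨_, inferInstance, fgen xop yop (zop p), ⟨gcode (0, 1, 0), ?_⟩, ?_, ?_⟩
  · intro h
    have h1 := congrArg (fun u : (Matrix (Fin 3) (Fin 3) (Module.End ℤ V))ˣ => u.val 0 1) h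
    simp only [fgen, Equiv.symm_apply_apply, Em_val (show (0 : Fin 3) ≠ 1 by decide), gval] at h1
    simp at h1
  · intro n s hp
    rw [ev_Ww, rho_pos p n hp, one_mul]; rfl
  · intro n s hp
    rw [ev_Ww, rho_neg p n hp, zero_mul, Em_zero]

attribute [irreducible] gcode

end Pool.Agent.H.MP_1220fe_lc
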