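import Mathlib
import Pool.Agent.H.MP_1220fe_lc.Alg

set_option autoImplicit false

namespace Pool.Agent.H.MP_1220fe_lc

open Nat.Partrec (Code)
open Nat.Partrec.Code

section prim
variable {α : Type} [Primcodable α]

theorem primrec_invRev : Primrec (FreeGroup.invRev : List (α × Bool) → List (α × Bool)) := by
  have h : Primrec₂ (fun (_ : List (α × Bool)) (g : α × Bool) => (g.1, !g.2)) :=
    (Primrec.pair (Primrec.fst.comp Primrec.snd)
      (Primrec.not.comp (Primrec.snd.comp Primrec.snd))).to₂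
  exact Primrec.list_reverse.comp (Primrec.list_map Primrec.id h)

theorem primrec_comm : Primrec₂ (comm : List (α × Bool) → List (α × Bool) → _) := by
  unfold comm
  exact (Primrec.list_append.comp
    (Primrec.list_append.comp
      (Primrec.list_append.comp Primrec.fst Primrec.snd)
      (primrec_invRev.comp Primrec.fst))
    (primrec_invRev.comp Primrec.snd)).to₂

end prim

theorem primrec_Uw : Primrec (fun p : (Fin 3 × Fin 3) × ℕ => Uw p.1.1 p.1.2 p.2) := by
  have hg : Primrec (fun p : (Fin 3 × Fin 3) × ℕ => gw p.1.1 p.1.2 3) :=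
    (Primrec.dom_finite (fun q : Fin 3 × Fin 3 => gw q.1 q.2 3)).comp Primrec.fst
  have h1 : Primrec (fun p : ((Fin 3 × Fin 3) × ℕ) × (ℕ × Wd) =>
      gw p.1.1.1 (third p.1.1.1 p.1.1.2) 2) :=
    (Primrec.dom_finite (fun q : Fin 3 × Fin 3 => gw q.1 (third q.1 q.2) 2)).comp
      (Primrec.fst.comp Primrec.fst)
  have h2 : Primrec (fun p : ((Fin 3 × Fin 3) × ℕ) × (ℕ × Wd) =>
      gw (third p.1.1.1 p.1.1.2) p.1.1.1 0) :=
    (Primrec.dom_finite (fun q : Fin 3 × Fin 3 => gw (third q.1 q.2) q.1 0)).comp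
      (Primrec.fst.comp Primrec.fst)
  have hh : Primrec₂ (fun (p : (Fin 3 × Fin 3) × ℕ) (q : ℕ × Wd) =>
      comm (gw p.1.1 (third p.1.1 p.1.2) 2) (comm (gw (third p.1.1 p.1.2) p.1.1 0) q.2)) :=
    (primrec_comm.comp h1 (primrec_comm.comp h2 (Primrec.snd.comp Primrec.snd))).to₂
  refine (Primrec.nat_rec' Primrec.snd hg hh).of_eq ?_
  rintro ⟨⟨i, j⟩, n⟩
  induction n with
  | zero => rfl
  | succ n ih =>
    simp only at ih ⊢
    rw [ih]; rfl

theorem primrec_Pw : Primrec (fun p : (Fin 3 × Fin 3) × ℕ => Pw p.2 p.1.1 p.1.2) := by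
  have h1 : Primrec (fun p : (Fin 3 × Fin 3) × ℕ => gw p.1.1 (third p.1.1 p.1.2) 1) :=
    (Primrec.dom_finite (fun q : Fin 3 × Fin 3 => gw q.1 (third q.1 q.2) 1)).comp Primrec.fst
  have h2 : Primrec (fun p : (Fin 3 × Fin 3) × ℕ => ((third p.1.1 p.1.2, p.1.2), p.2)) :=
    Primrec.pair ((Primrec.dom_finite
      (fun q : Fin 3 × Fin 3 => (third q.1 q.2, q.2))).comp Primrec.fst) Primrec.snd
  exact primrec_comm.comp h1 (primrec_Uw.comp h2)

theorem primrec_Ww : Primrec (fun p : ℕ × Fin 36 => Ww p.1 p.2) := by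
  have hb : Primrec (fun p : ℕ × Fin 36 =>
      decide ((gcode.symm p.2).1 = (gcode.symm p.2).2.1)) :=
    (Primrec.dom_finite (fun s : Fin 36 =>
      decide ((gcode.symm s).1 = (gcode.symm s).2.1))).comp Primrec.snd
  have h1 : Primrec (fun p : ℕ × Fin 36 => Pw p.1 (gcode.symm p.2).1
      (third (gcode.symm p.2).1 (gcode.symm p.2).2.1)) :=
    primrec_Pw.comp (Primrec.pair ((Primrec.dom_finite (fun s : Fin 36 =>
        ((gcode.symm s).1, third (gcode.symm s).1 (gcode.symm s).2.1))).comp Primrec.snd)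
        Primrec.fst)
  have h2 : Primrec (fun p : ℕ × Fin 36 =>
      gw (third (gcode.symm p.2).1 (gcode.symm p.2).2.1) (gcode.symm p.2).2.1
          (gcode.symm p.2).2.2) :=
    (Primrec.dom_finite (fun s : Fin 36 =>
        gw (third (gcode.symm s).1 (gcode.symm s).2.1) (gcode.symm s).2.1
          (gcode.symm s).2.2)).comp Primrec.snd
  refine (Primrec.cond hb (Primrec.const []) (primrec_comm.comp h1 h2)).of_eq fun p => ?_
  by_cases h : (gcode.symm p.2).1 = (gcode.symm p.2).2.1
  · rw [Ww, if_pos h, decide_eq_true h]; rfl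
  · rw [Ww, if_neg h, decide_eq_false h]; rfl

/-- the `e`-th partial computable function -/
def phi (e : ℕ) : ℕ →. ℕ := Code.eval (Denumerable.ofNat Code e)

/-- stage `t` approximation to the `e`-th partial computable function -/
def phin (t e n : ℕ) : Option ℕ := Code.evaln t (Denumerable.ofNat Code e) n

theorem primrec_phin : Primrec (fun p : (ℕ × ℕ) × ℕ => phin p.1.1 p.1.2 p.2) := by
  unfold phin
  exact Code.primrec_evaln.comp (Primrec.pair (Primrec.pair (Primrec.fst.comp Primrec.fst)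
    ((Primrec.ofNat Code).comp (Primrec.snd.comp Primrec.fst))) Primrec.snd)

theorem mem_phi {e n x : ℕ} : x ∈ phi e n ↔ ∃ t, phin t e n = some x := by
  unfold phi phin
  rw [Code.evaln_complete]
  rfl

theorem phin_mono {t t' e n x : ℕ} (h : t ≤ t') (hx : phin t e n = some x) :
    phin t' e n = some x :=
  Code.evaln_mono h hx

/-- first set of the inseparable pair -/
def A0 : Set ℕ := {e | 0 ∈ phi e e}
/-- second set of the inseparable pair -/
def B0 : Set ℕ := {e | 1 ∈ phi e e}

theorem disj (e : ℕ) (h0 : e ∈ A0) (h1 : e ∈ B0) : False :=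
  Nat.zero_ne_one (Part.mem_unique h0 h1)

theorem insep (h : ℕ → Bool) (hc : Computable h) (hA : ∀ n ∈ A0, h n = true)
    (hB : ∀ n ∈ B0, h n = false) : False := by
  have hg : Computable (fun n => cond (h n) 1 0 : ℕ → ℕ) :=
    Computable.cond hc (Computable.const 1) (Computable.const 0)
  obtain ⟨c, hcode⟩ := Code.exists_code.1 (Partrec.nat_iff.1 hg.partrec)
  have key : phi (Encodable.encode c) (Encodable.encode c)
      = Part.some (cond (h (Encodable.encode c)) 1 0) := by
    unfold phi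
    rw [Denumerable.ofNat_encode, hcode]; rfl
  cases hh : h (Encodable.encode c) with
  | true =>
    rw [hh] at key
    have : Encodable.encode c ∈ B0 := by
      show 1 ∈ phi _ _
      rw [key]; exact Part.mem_some _
    rw [hB _ this] at hh; exact Bool.noConfusion hh
  | false =>
    rw [hh] at key
    have : Encodable.encode c ∈ A0 := by
      show 0 ∈ phi _ _
      rw [key]; exact Part.mem_some _
    rw [hA _ this] at hh; exact Bool.noConfusion hh

/-- the relators, enumerated: `(t, n, s)` -/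
def rel3 (t n : ℕ) (s : Fin 36) : Wd :=
  if phin t n n = some 0 then Ww n s else
    if phin t n n = some 1 then Ww n s ++ [(s, false)] else []

theorem primrec_rel3 : Primrec (fun p : (ℕ × ℕ) × Fin 36 => rel3 p.1.1 p.1.2 p.2) := by
  unfold rel3
  have hp : Primrec (fun p : (ℕ × ℕ) × Fin 36 => phin p.1.1 p.1.2 p.1.2) :=
    primrec_phin.comp (Primrec.pair Primrec.fst (Primrec.snd.comp Primrec.fst))
  have hw : Primrec (fun p : (ℕ × ℕ) × Fin 36 => Ww p.1.2 p.2) :=
    primrec_Ww.comp (Primrec.pair (Primrec.snd.comp Primrec.fst) Primrec.snd)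
  refine Primrec.ite (Primrec.eq.comp hp (Primrec.const _)) hw
    (Primrec.ite (Primrec.eq.comp hp (Primrec.const _))
      (Primrec.list_append.comp hw ?_) (Primrec.const _))
  exact (Primrec.dom_finite (fun s : Fin 36 => [(s, false)])).comp Primrec.snd

/-- the set of relators -/
def rels : Set (FreeGroup (Fin 36)) :=
  Set.range fun p : (ℕ × ℕ) × Fin 36 => FreeGroup.mk (rel3 p.1.1 p.1.2 p.2)

/-- the group -/
abbrev GG : Type := PresentedGroup rels

/-- its generators -/
def gens (s : Fin 36) : GG := PresentedGroup.of s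

theorem ev_mk {α : Type} {H : Type} [Group H] (f : α → H) (w : List (α × Bool)) :
    FreeGroup.lift f (FreeGroup.mk w) = ev f w := FreeGroup.lift_mk

theorem ev_gens (w : Wd) : ev gens w = PresentedGroup.mk rels (FreeGroup.mk w) := by
  rw [← ev_mk]
  have : FreeGroup.lift gens = PresentedGroup.mk rels := by
    ext s
    simp [gens, PresentedGroup.of]
  rw [this]

theorem ev_gens_eq_one (w : Wd) :
    ev gens w = 1 ↔ FreeGroup.mk w ∈ Subgroup.normalClosure rels := by
  rw [ev_gens]
  exact QuotientGroup.eq_one_iff _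

theorem closure_gens : Subgroup.closure (Set.range gens) = ⊤ := by
  have := PresentedGroup.closure_range_of rels
  exact this

theorem ev_A (n : ℕ) (hn : n ∈ A0) (s : Fin 36) : ev gens (Ww n s) = 1 := by
  obtain ⟨t, ht⟩ := mem_phi.1 hn
  rw [ev_gens_eq_one]
  apply Subgroup.subset_normalClosure
  refine ⟨((t, n), s), ?_⟩
  simp [rel3, ht]

theorem ev_B (n : ℕ) (hn : n ∈ B0) (s : Fin 36) : ev gens (Ww n s) = gens s := by
  obtain ⟨t, ht⟩ := mem_phi.1 hn
  have h : ev gens (Ww n s ++ [(s, false)]) = 1 := by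
    rw [ev_gens_eq_one]
    apply Subgroup.subset_normalClosure
    refine ⟨((t, n), s), ?_⟩
    simp [rel3, ht]
  rw [ev_append] at h
  have : ev gens [(s, false)] = (gens s)⁻¹ := by simp [ev]
  rw [this] at h
  exact mul_inv_eq_one.1 h

theorem gens_nontrivial : ∃ s, gens s ≠ 1 := by
  obtain ⟨H, _, f, ⟨s, hs⟩, h1, h2⟩ := model (fun n => n ∈ B0)
  refine ⟨s, fun hcon => hs ?_⟩
  have hrel : ∀ r ∈ rels, FreeGroup.lift f r = 1 := by
    rintro _ ⟨⟨⟨t, n⟩, s'⟩, rfl⟩
    rw [ev_mk]
    unfold rel3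
    simp only
    split_ifs with ha hb
    · apply h2
      intro hB
      exact disj n (mem_phi.2 ⟨t, ha⟩) hB
    · rw [ev_append, h1 n s' (mem_phi.2 ⟨t, hb⟩)]
      simp [ev]
    · rfl
  have := congrArg (PresentedGroup.toGroup hrel) hcon
  simpa [gens] using this

/-! ### the word problem is r.e. -/

/-- certificates -/
abbrev Cert := List ((Wd × Bool) × ((ℕ × ℕ) × Fin 36))

/-- word of one certificate entry -/
def cw1 (t : (Wd × Bool) × ((ℕ × ℕ) × Fin 36)) : Wd :=
  t.1.1 ++ cond t.1.2 (rel3 t.2.1.1 t.2.1.2 t.2.2)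
    (FreeGroup.invRev (rel3 t.2.1.1 t.2.1.2 t.2.2)) ++ FreeGroup.invRev t.1.1

/-- word of a certificate -/
def cw (c : Cert) : Wd := c.flatMap cw1

theorem mk_cw1_mem (t : (Wd × Bool) × ((ℕ × ℕ) × Fin 36)) :
    FreeGroup.mk (cw1 t) ∈ Subgroup.normalClosure rels := by
  obtain ⟨⟨u, b⟩, q⟩ := t
  have hr : FreeGroup.mk (rel3 q.1.1 q.1.2 q.2) ∈ Subgroup.normalClosure rels :=
    Subgroup.subset_normalClosure ⟨q, rfl⟩
  have : FreeGroup.mk (cw1 ((u, b), q)) = FreeGroup.mk u *
      (cond b (FreeGroup.mk (rel3 q.1.1 q.1.2 q.2)) (FreeGroup.mk (rel3 q.1.1 q.1.2 q.2))⁻¹) *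
      (FreeGroup.mk u)⁻¹ := by
    cases b <;> simp [cw1, FreeGroup.inv_mk]
  rw [this]
  apply Subgroup.Normal.conj_mem Subgroup.normalClosure_normal
  cases b
  · exact inv_mem hr
  · exact hr

theorem mk_cw_mem (c : Cert) : FreeGroup.mk (cw c) ∈ Subgroup.normalClosure rels := by
  induction c with
  | nil => exact one_mem _
  | cons t c ih =>
    have : FreeGroup.mk (cw (t :: c)) = FreeGroup.mk (cw1 t) * FreeGroup.mk (cw c) := by
      simp [cw, FreeGroup.mul_mk]
    rw [this]
    exact mul_mem (mk_cw1_mem t) ih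

theorem cw_append (c d : Cert) : cw (c ++ d) = cw c ++ cw d := by
  simp [cw]

theorem exists_cert (g : FreeGroup (Fin 36)) (hg : g ∈ Subgroup.normalClosure rels) :
    ∃ c : Cert, FreeGroup.mk (cw c) = g := by
  have hinv : ∀ c : Cert, ∃ d : Cert, FreeGroup.mk (cw d) = (FreeGroup.mk (cw c))⁻¹ := by
    intro c
    induction c with
    | nil => exact ⟨[], by simp [cw]⟩
    | cons t c ih =>
      obtain ⟨d, hd⟩ := ih
      refine ⟨d ++ [((t.1.1, !t.1.2), t.2)], ?_⟩
      rw [cw_append, ← FreeGroup.mul_mk, hd]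
      have : FreeGroup.mk (cw (t :: c)) = FreeGroup.mk (cw1 t) * FreeGroup.mk (cw c) := by
        simp [cw, FreeGroup.mul_mk]
      rw [this, mul_inv_rev]
      congr 1
      obtain ⟨⟨u, b⟩, q⟩ := t
      cases b <;> simp [cw, cw1, FreeGroup.inv_mk, ← FreeGroup.mul_mk, mul_assoc]
  unfold Subgroup.normalClosure at hg
  induction hg using Subgroup.closure_induction with
  | mem x hx =>
    obtain ⟨r, hr, hx⟩ := Group.mem_conjugatesOfSet_iff.1 hx
    obtain ⟨q, rfl⟩ := hr
    obtain ⟨u, rfl⟩ := isConj_iff.1 hx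
    refine ⟨[((u.toWord, true), q)], ?_⟩
    simp only [cw, cw1, List.flatMap_cons, List.flatMap_nil, List.append_nil, cond_true]
    rw [← FreeGroup.mul_mk, ← FreeGroup.mul_mk, ← FreeGroup.inv_mk, FreeGroup.mk_toWord]
  | one => exact ⟨[], rfl⟩
  | mul x y _ _ ihx ihy =>
    obtain ⟨c, rfl⟩ := ihx
    obtain ⟨d, rfl⟩ := ihy
    exact ⟨c ++ d, by rw [cw_append, FreeGroup.mul_mk]⟩
  | inv x _ ih =>
    obtain ⟨c, rfl⟩ := ih
    exact hinv c

/-- step of free reduction -/
def redStep (a : Fin 36 × Bool) (w : Wd) : Wd :=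
  match w with
  | [] => [a]
  | b :: tl => cond (decide (a.1 = b.1) && decide (a.2 = !b.2)) tl (a :: b :: tl)

theorem reduce_cons' (a : Fin 36 × Bool) (w : Wd) :
    FreeGroup.reduce (a :: w) = redStep a (FreeGroup.reduce w) := by
  rw [FreeGroup.reduce.cons]
  cases h : FreeGroup.reduce w with
  | nil => rfl
  | cons b tl =>
    simp only [redStep]
    by_cases h1 : a.1 = b.1 <;> by_cases h2 : a.2 = !b.2 <;> simp [h1, h2]

theorem primrec_redStep : Primrec₂ redStep := by
  refine Primrec₂.mk ?_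
  have hf : Primrec (fun p : (Fin 36 × Bool) × Wd => p.2) := Primrec.snd
  have hg : Primrec (fun p : (Fin 36 × Bool) × Wd => [p.1]) :=
    Primrec.list_cons.comp Primrec.fst (Primrec.const [])
  have hc : Primrec (fun p : ((Fin 36 × Bool) × Wd) × ((Fin 36 × Bool) × Wd) =>
      decide (p.1.1.1 = p.2.1.1) && decide (p.1.1.2 = !p.2.1.2)) := by
    refine Primrec.and.comp ?_ ?_
    · have : Primrec (fun q : Fin 36 × Fin 36 => decide (q.1 = q.2)) := Primrec.dom_finite _
      exact this.comp (Primrec.pair (Primrec.fst.comp (Primrec.fst.comp Primrec.fst))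
        (Primrec.fst.comp (Primrec.fst.comp Primrec.snd)))
    · have : Primrec (fun q : Bool × Bool => decide (q.1 = !q.2)) := Primrec.dom_finite _
      exact this.comp (Primrec.pair (Primrec.snd.comp (Primrec.fst.comp Primrec.fst))
        (Primrec.snd.comp (Primrec.fst.comp Primrec.snd)))
  have hh : Primrec₂ (fun (p : (Fin 36 × Bool) × Wd) (q : (Fin 36 × Bool) × Wd) =>
      cond (decide (p.1.1 = q.1.1) && decide (p.1.2 = !q.1.2)) q.2 (p.1 :: q.1 :: q.2)) := by
    refine Primrec₂.mk (Primrec.cond hc (Primrec.snd.comp Primrec.snd) ?_)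
    exact Primrec.list_cons.comp (Primrec.fst.comp Primrec.fst)
      (Primrec.list_cons.comp (Primrec.fst.comp Primrec.snd) (Primrec.snd.comp Primrec.snd))
  refine (Primrec.list_casesOn hf hg hh).of_eq ?_
  rintro ⟨a, w⟩
  cases w <;> rfl

theorem primrec_reduce : Primrec (FreeGroup.reduce : Wd → Wd) := by
  have hh : Primrec₂ (fun (_ : Wd) (q : (Fin 36 × Bool) × Wd) => redStep q.1 q.2) := by
    refine Primrec₂.mk ?_
    exact primrec_redStep.comp (Primrec.fst.comp Primrec.snd) (Primrec.snd.comp Primrec.snd)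
  refine (Primrec.list_foldr Primrec.id (Primrec.const []) hh).of_eq fun w => ?_
  simp only [id]
  induction w with
  | nil => rfl
  | cons a w ih => rw [List.foldr_cons, ih, reduce_cons']

theorem primrec_cw : Primrec cw := by
  have h1 : Primrec (fun t : (Wd × Bool) × ((ℕ × ℕ) × Fin 36) =>
      rel3 t.2.1.1 t.2.1.2 t.2.2) := primrec_rel3.comp Primrec.snd
  have h2 : Primrec cw1 :=
    Primrec.list_append.comp (Primrec.list_append.comp (Primrec.fst.comp Primrec.fst)
      (Primrec.cond (Primrec.snd.comp Primrec.fst) h1 (primrec_invRev.comp h1)))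
      (primrec_invRev.comp (Primrec.fst.comp Primrec.fst))
  exact Primrec.list_flatMap Primrec.id (h2.comp Primrec.snd).to₂

theorem re_word : REPred (fun w : Wd => ev gens w = 1) := by
  have hpart : Partrec (fun w : Wd => Nat.rfindOpt (fun n =>
      ((Encodable.decode n : Option Cert).bind fun c =>
        if FreeGroup.reduce w = FreeGroup.reduce (cw c) then some () else none))) := by
    apply Partrec.rfindOpt
    have hin : Primrec₂ (fun (p : Wd × ℕ) (c : Cert) =>
        if FreeGroup.reduce p.1 = FreeGroup.reduce (cw c) then some () else none) := by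
      refine Primrec₂.mk ?_
      refine Primrec.ite ?_ (Primrec.const _) (Primrec.const _)
      exact Primrec.eq.comp (primrec_reduce.comp (Primrec.fst.comp Primrec.fst))
        (primrec_reduce.comp (primrec_cw.comp Primrec.snd))
    refine Primrec₂.to_comp (Primrec₂.mk ?_)
    exact Primrec.option_bind (Primrec.decode.comp Primrec.snd) hin
  refine hpart.dom_re.of_eq fun w => ?_
  rw [Nat.rfindOpt_dom, ev_gens_eq_one]
  constructor
  · rintro ⟨n, a, ha⟩
    simp only [Option.mem_def, Option.bind_eq_some_iff] at ha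
    obtain ⟨c, _, hc⟩ := ha
    split_ifs at hc with hr
    rw [FreeGroup.reduce.exact hr]
    exact mk_cw_mem c
  · intro h
    obtain ⟨c, hc⟩ := exists_cert _ h
    refine ⟨Encodable.encode c, (), ?_⟩
    simp [FreeGroup.reduce.sound hc]

end Pool.Agent.H.MP_1220fe_lc
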