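import Mathlib
import Pool.Agent.H.MP_1220fe_lc.Comp

set_option autoImplicit false

namespace Pool.Agent.H.MP_1220fe_lc

theorem primrec_ev_finite {K : Type} [Group K] [Primcodable K] [Finite K] (f : Fin 36 → K) :
    Primrec (fun w : Wd => ev f w) := by
  have hstep : Primrec (fun q : (Fin 36 × Bool) × K =>
      cond q.1.2 (f q.1.1) (f q.1.1)⁻¹ * q.2) := Primrec.dom_finite _
  have hh : Primrec₂ (fun (_ : Wd) (q : (Fin 36 × Bool) × K) =>
      cond q.1.2 (f q.1.1) (f q.1.1)⁻¹ * q.2) := Primrec₂.mk (hstep.comp Primrec.snd)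
  refine (Primrec.list_foldr Primrec.id (Primrec.const (1 : K)) hh).of_eq fun w => ?_
  simp only [id]
  induction w with
  | nil => rfl
  | cons a w ih => rw [List.foldr_cons, ih, ev_cons]

theorem map_ev {H K : Type} [Group H] [Group K] (φ : H →* K) (f : Fin 36 → H) (w : Wd) :
    φ (ev f w) = ev (fun s => φ (f s)) w := by
  induction w with
  | nil => simp [ev]
  | cons a w ih =>
    rw [ev_cons, ev_cons, map_mul, ih]
    cases a.2 <;> simp

theorem finite_quotient {K : Type} [Group K] [Finite K] (φ : GG →* K) : φ = 1 := by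
  apply MonoidHom.eq_of_eqOn_dense closure_gens
  rintro _ ⟨s, rfl⟩
  by_contra hne
  obtain ⟨n, ⟨e⟩⟩ := Finite.exists_equiv_fin K
  let _ : Primcodable K := Primcodable.ofEquiv (Fin n) e
  have h1 : Primrec (fun m : ℕ => ev (fun s => φ (gens s)) (Ww m s)) :=
    (primrec_ev_finite _).comp (primrec_Ww.comp (Primrec.pair Primrec.id (Primrec.const s)))
  classical
  have hdec' : Primrec (fun k : K => decide (k = 1)) := Primrec.dom_finite _
  have h2 : Primrec (fun m : ℕ => decide (ev (fun s => φ (gens s)) (Ww m s) = 1)) :=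
    hdec'.comp h1
  refine insep _ h2.to_comp ?_ ?_
  · intro m hm
    rw [← map_ev, ev_A m hm]; simp
  · intro m hm
    rw [← map_ev, ev_B m hm]
    simpa using hne

theorem GG_infinite : Infinite GG := by
  by_contra hf
  rw [not_infinite_iff_finite] at hf
  obtain ⟨s, hs⟩ := gens_nontrivial
  have := finite_quotient (MonoidHom.id GG)
  apply hs
  simpa using DFunLike.congr_fun this (gens s)

theorem not_free : ¬ IsFreeGroup GG := by
  intro hfree
  obtain ⟨ι, ⟨b⟩⟩ := hfree.nonempty_basis
  obtain ⟨s, hs⟩ := gens_nontrivial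
  have hne : Nonempty ι := by
    by_contra hemp
    rw [not_nonempty_iff] at hemp
    apply hs
    have : MonoidHom.id GG = 1 := b.ext_hom _ _ (fun i => (hemp.false i).elim)
    simpa using DFunLike.congr_fun this (gens s)
  obtain ⟨i⟩ := hne
  have := finite_quotient (b.lift (fun _ => Multiplicative.ofAdd (1 : ZMod 2)))
  have h2 := DFunLike.congr_fun this (b i)
  simp only [FreeGroupBasis.lift_apply_apply, MonoidHom.one_apply,
    FreeGroupBasis.repr_apply_coe, FreeGroup.lift_apply_of] at h2
  exact absurd h2 (by decide)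

theorem not_virtually_free : ¬ ∃ H : Subgroup GG, H.FiniteIndex ∧ IsFreeGroup H := by
  rintro ⟨H, hfin, hfree⟩
  have h1 : H.normalCore = ⊤ := by
    have := finite_quotient (QuotientGroup.mk' H.normalCore)
    rw [eq_top_iff]
    intro g _
    have h2 := DFunLike.congr_fun this g
    simpa using h2
  have h2 : H = ⊤ := by
    rw [eq_top_iff, ← h1]
    exact H.normalCore_le
  subst h2
  exact not_free (IsFreeGroup.ofMulEquiv Subgroup.topEquiv)

end Pool.Agent.H.MP_1220fe_lc
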