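import Mathlib
import Pool.Agent.H.MP_1220fe_lc.Comp

set_option autoImplicit false

namespace Pool.Agent.H.MP_1220fe_lc

/-- finite initial segment -/
def pfx (x : ℕ → ℕ) (m : ℕ) : List ℕ := List.ofFn fun j : Fin m => x j.val

theorem pfx_length (x : ℕ → ℕ) (m : ℕ) : (pfx x m).length = m := by simp [pfx]

theorem pfx_getElem? (x : ℕ → ℕ) {m i : ℕ} (h : i < m) : (pfx x m)[i]? = some (x i) := by
  simp [pfx, h]

theorem pfx_take (x : ℕ → ℕ) {k m : ℕ} (h : k ≤ m) : (pfx x m).take k = pfx x k := by
  apply List.ext_getElem?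
  intro i
  by_cases hi : i < k
  · rw [List.getElem?_take_of_lt hi, pfx_getElem? x (lt_of_lt_of_le hi h), pfx_getElem? x hi]
  · rw [List.getElem?_eq_none, List.getElem?_eq_none] <;> simp [pfx_length] <;> omega

theorem pfx_prefix (x : ℕ → ℕ) {k m : ℕ} (h : k ≤ m) : pfx x k <+: pfx x m := by
  rw [← pfx_take x h]; exact List.take_prefix _ _

theorem bex_lt {β : Type} [Primcodable β] {R : ℕ → β → Prop} (hf : PrimrecRel R) :
    PrimrecRel fun n (y : β) => ∃ x < n, R x y :=
  (hf.exists_mem_list.comp (Primrec.list_range.comp Primrec.fst) Primrec.snd).of_eq (by simp)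

theorem ball_lt {β : Type} [Primcodable β] {R : ℕ → β → Prop} (hf : PrimrecRel R) :
    PrimrecRel fun n (y : β) => ∀ x < n, R x y :=
  (hf.forall_mem_list.comp (Primrec.list_range.comp Primrec.fst) Primrec.snd).of_eq (by simp)

/-- the checker of the class `Q` -/
def cQ (σ : List ℕ) : Bool :=
  decide (∃ e < σ.length, e + 3 ≤ σ.length ∧ ∀ i < e + 3, phin σ.length e i = σ[i]?)

theorem primrec_cQ : Primrec cQ := by
  have h1 : PrimrecRel (fun (i : ℕ) (q : ℕ × List ℕ) => phin q.2.length q.1 i = q.2[i]?) := by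
    refine Primrec.eq.comp ?_ ?_
    · exact primrec_phin.comp (Primrec.pair (Primrec.pair
        (Primrec.list_length.comp (Primrec.snd.comp Primrec.snd))
        (Primrec.fst.comp Primrec.snd)) Primrec.fst)
    · exact Primrec.list_getElem?.comp (Primrec.snd.comp Primrec.snd) Primrec.fst
  have h2 : PrimrecRel (fun (e : ℕ) (σ : List ℕ) => e + 3 ≤ σ.length ∧
      ∀ i < e + 3, phin σ.length e i = σ[i]?) := by
    refine PrimrecPred.and ?_ ?_
    · exact Primrec.nat_le.comp
        (Primrec.nat_add.comp Primrec.fst (Primrec.const 3)) (Primrec.list_length.comp Primrec.snd)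
    · have := ball_lt h1
      exact PrimrecRel.comp this (Primrec.nat_add.comp Primrec.fst (Primrec.const 3))
        (Primrec.pair Primrec.fst Primrec.snd)
  have h3 := bex_lt h2
  have h4 : PrimrecPred (fun σ : List ℕ => ∃ e < σ.length, e + 3 ≤ σ.length ∧
      ∀ i < e + 3, phin σ.length e i = σ[i]?) :=
    PrimrecRel.comp h3 Primrec.list_length Primrec.id
  exact primrecPred_iff_primrec_decide.1 h4

/-- `Π⁰₁` class of a checker -/
def PiC (c : List ℕ → Bool) : Set (ℕ → ℕ) :=
  {x : ℕ → ℕ | (∀ n, x n ≤ 1) ∧ ∀ m : ℕ, c (List.ofFn fun j : Fin m => x j.val) = false}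

theorem not_computable_of_mem (x : ℕ → ℕ) (hx : x ∈ PiC cQ) : ¬ Computable x := by
  intro hc
  obtain ⟨c, hcode⟩ := Nat.Partrec.Code.exists_code.1 (Partrec.nat_iff.1 hc.partrec)
  set e := Encodable.encode c with he
  have hphi : ∀ i, ∃ t, phin t e i = some (x i) := by
    intro i
    rw [← mem_phi]
    unfold phi
    rw [he, Denumerable.ofNat_encode, hcode]
    simp
  choose t ht using hphi
  let T := (Finset.range (e + 3)).sup t + e + 3
  have hT : cQ (pfx x T) = true := by
    unfold cQ
    rw [decide_eq_true_iff, pfx_length]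
    refine ⟨e, by omega, by omega, fun i hi => ?_⟩
    rw [pfx_getElem? x (by omega)]
    refine phin_mono ?_ (ht i)
    have : t i ≤ (Finset.range (e + 3)).sup t := Finset.le_sup (Finset.mem_range.2 hi)
    omega
  have := hx.2 T
  change cQ (pfx x T) = false at this
  rw [hT] at this; exact Bool.noConfusion this

/-- all binary strings of length `L` -/
def bins : ℕ → List (List ℕ)
  | 0 => [[]]
  | L + 1 => (bins L).flatMap fun σ => [σ ++ [0], σ ++ [1]]

theorem mem_bins {L : ℕ} {σ : List ℕ} : σ ∈ bins L ↔ σ.length = L ∧ ∀ a ∈ σ, a ≤ 1 := by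
  induction L generalizing σ with
  | zero =>
    simp only [bins, List.mem_singleton, List.length_eq_zero_iff]
    constructor
    · rintro rfl; simp
    · exact fun h => h.1
  | succ L ih =>
    simp only [bins, List.mem_flatMap, List.mem_cons, List.not_mem_nil, or_false]
    constructor
    · rintro ⟨τ, hτ, rfl | rfl⟩
      · have := ih.1 hτ
        refine ⟨by simp [this.1], fun a ha => ?_⟩
        rcases List.mem_append.1 ha with h | h
        · exact this.2 a h
        · simp at h; omega
      · have := ih.1 hτ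
        refine ⟨by simp [this.1], fun a ha => ?_⟩
        rcases List.mem_append.1 ha with h | h
        · exact this.2 a h
        · simp at h; omega
    · rintro ⟨hl, hb⟩
      rcases List.eq_nil_or_concat σ with rfl | ⟨τ, a, rfl⟩
      · simp at hl
      · refine ⟨τ, ih.2 ⟨by simpa using hl, fun b hbm => hb b (by simp [hbm])⟩, ?_⟩
        have ha : a ≤ 1 := hb a (by simp)
        interval_cases a
        · left; simp
        · right; simp

theorem bins_length (L : ℕ) : (bins L).length = 2 ^ L := by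
  induction L with
  | zero => rfl
  | succ L ih =>
    simp only [bins, List.length_flatMap]
    simp [ih, pow_succ]

theorem bins_nodup (L : ℕ) : (bins L).Nodup := by
  induction L with
  | zero => simp [bins]
  | succ L ih =>
    simp only [bins]
    rw [List.nodup_flatMap]
    refine ⟨fun σ _ => by simp, ?_⟩
    refine ih.imp ?_
    intro σ τ hne
    simp only [Function.onFun, List.disjoint_left]
    intro a ha hb
    simp only [List.mem_cons, List.not_mem_nil, or_false] at ha hb
    rcases ha with rfl | rfl <;> rcases hb with hb | hb <;>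
      · have := List.append_inj' hb rfl
        exact hne this.1

/-- finset of binary strings of length `L` -/
def SS (L : ℕ) : Finset (List ℕ) := (bins L).toFinset

theorem mem_SS {L : ℕ} {σ : List ℕ} : σ ∈ SS L ↔ σ.length = L ∧ ∀ a ∈ σ, a ≤ 1 := by
  rw [SS, List.mem_toFinset, mem_bins]

theorem card_SS (L : ℕ) : (SS L).card = 2 ^ L := by
  rw [SS, List.toFinset_card_of_nodup (bins_nodup L), bins_length]

theorem countP_eq_card (L : ℕ) (p : List ℕ → Bool) :
    (bins L).countP p = ((SS L).filter fun σ => p σ = true).card := by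
  rw [List.countP_eq_length_filter, SS, ← List.toFinset_filter,
    List.toFinset_card_of_nodup ((bins_nodup L).filter _)]

theorem take_mem_SS {L k : ℕ} {σ : List ℕ} (h : σ ∈ SS L) (hk : k ≤ L) : σ.take k ∈ SS k := by
  rw [mem_SS] at h ⊢
  refine ⟨by simp [h.1, hk], fun a ha => h.2 a (List.mem_of_mem_take ha)⟩

theorem card_prefix_le (L k : ℕ) (v : List ℕ) (hv : v.length = k) (hk : k ≤ L) :
    ((SS L).filter fun σ => v <+: σ).card ≤ 2 ^ (L - k) := by
  rw [← card_SS (L - k)]
  apply Finset.card_le_card_of_injOn (fun σ => σ.drop k)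
  · intro σ hσ
    simp only [Finset.coe_filter, Set.mem_ofPred_eq] at hσ
    have h1 := mem_SS.1 hσ.1
    simp only [Finset.mem_coe]
    rw [mem_SS]
    exact ⟨by simp [h1.1], fun a ha => h1.2 a (List.mem_of_mem_drop ha)⟩
  · intro σ hσ τ hτ heq
    simp only [Finset.coe_filter, Set.mem_ofPred_eq] at hσ hτ
    obtain ⟨⟨_, ⟨s, rfl⟩⟩, ⟨_, ⟨t, rfl⟩⟩⟩ := hσ, hτ
    subst hv
    simp at heq
    rw [heq]

/-- good strings: not yet removed -/
def good (σ : List ℕ) : Bool := decide (∀ m < σ.length + 1, cQ (σ.take m) = false)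

theorem good_iff {σ : List ℕ} : good σ = true ↔ ∀ m ≤ σ.length, cQ (σ.take m) = false := by
  simp [good]

theorem primrec_good : Primrec good := by
  have h1 : PrimrecRel (fun (m : ℕ) (σ : List ℕ) => cQ (σ.take m) = false) :=
    Primrec.eq.comp (primrec_cQ.comp (Primrec.list_take.comp Primrec.fst Primrec.snd))
      (Primrec.const false)
  have h2 := ball_lt h1
  have h3 : PrimrecPred (fun σ : List ℕ => ∀ m < σ.length + 1, cQ (σ.take m) = false) :=
    PrimrecRel.comp h2 (Primrec.nat_add.comp Primrec.list_length (Primrec.const 1)) Primrec.id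
  exact primrecPred_iff_primrec_decide.1 h3

theorem good_prefix {σ τ : List ℕ} (h : σ <+: τ) (hg : good τ = true) : good σ = true := by
  rw [good_iff] at hg ⊢
  intro m hm
  obtain ⟨s, rfl⟩ := h
  have := hg m (by simp; omega)
  rwa [List.take_append_of_le_length hm] at this

theorem good_pfx {x : ℕ → ℕ} (h : ∀ m, good (pfx x m) = true) (m : ℕ) : cQ (pfx x m) = false := by
  have := good_iff.1 (h m) m (by simp [pfx_length])
  rwa [pfx_take x le_rfl] at this

theorem pfx_good {x : ℕ → ℕ} (hx : x ∈ PiC cQ) (m : ℕ) : good (pfx x m) = true := by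
  rw [good_iff]
  intro k hk
  rw [pfx_length] at hk
  rw [pfx_take x hk]
  exact hx.2 k

theorem sum_two_pow_le (k : ℕ) : ∑ j ∈ Finset.range k, 2 ^ j ≤ 2 ^ k := by
  induction k with
  | zero => simp
  | succ k ih => rw [Finset.sum_range_succ, pow_succ]; omega

open Classical in
theorem bad_small (L : ℕ) : 4 * ((SS L).filter fun σ => ¬ good σ = true).card ≤ 2 ^ L := by
  -- the strings removed because of `e`
  let B : ℕ → Finset (List ℕ) := fun e =>
    (SS L).filter fun σ => ∃ t, ∀ i < e + 3, phin t e i = σ[i]?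
  have hB : ∀ e, e + 3 ≤ L → (B e).card ≤ 2 ^ (L - (e + 3)) := by
    intro e he
    rcases (B e).eq_empty_or_nonempty with h | ⟨σ₀, h₀⟩
    · rw [h]; simp
    · refine le_trans (Finset.card_le_card ?_)
        (card_prefix_le L (e + 3) (σ₀.take (e + 3)) ?_ he)
      · intro σ hσ
        simp only [B, Finset.mem_filter] at hσ h₀ ⊢
        refine ⟨hσ.1, ?_⟩
        have hl := (mem_SS.1 hσ.1).1
        have hl0 := (mem_SS.1 h₀.1).1
        have : σ₀.take (e + 3) = σ.take (e + 3) := by
          apply List.ext_getElem?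
          intro i
          by_cases hi : i < e + 3
          · rw [List.getElem?_take_of_lt hi, List.getElem?_take_of_lt hi]
            obtain ⟨⟨_, t, ht⟩, ⟨_, t', ht'⟩⟩ := hσ, h₀
            have h1 := ht i hi
            have h2 := ht' i hi
            rw [List.getElem?_eq_getElem (by omega)] at h1 h2 ⊢
            rw [List.getElem?_eq_getElem (by omega)]
            have e1 : σ[i] ∈ phi e i := mem_phi.2 ⟨t, h1⟩
            have e2 : σ₀[i] ∈ phi e i := mem_phi.2 ⟨t', h2⟩
            rw [Part.mem_unique e1 e2]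
          · rw [List.getElem?_eq_none, List.getElem?_eq_none] <;> simp <;> omega
        rw [this]; exact List.take_prefix _ _
      · have hl0 := (mem_SS.1 (Finset.mem_filter.1 h₀).1).1
        simp [hl0, he]
  have hsub : ((SS L).filter fun σ => ¬ good σ = true) ⊆ (Finset.range (L - 2)).biUnion B := by
    intro σ hσ
    simp only [Finset.mem_filter] at hσ
    obtain ⟨hσS, hσ⟩ := hσ
    have hl := (mem_SS.1 hσS).1
    rw [good_iff] at hσ
    push Not at hσ
    obtain ⟨m, hm, hc⟩ := hσ
    rw [Bool.ne_false_iff, cQ, decide_eq_true_iff] at hc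
    have hlm : (σ.take m).length = m := by simp [hm]
    rw [hlm] at hc
    obtain ⟨e, _, he3, hi⟩ := hc
    simp only [Finset.mem_biUnion, Finset.mem_range, B, Finset.mem_filter]
    refine ⟨e, by omega, hσS, m, fun i hi' => ?_⟩
    rw [hi i hi', List.getElem?_take_of_lt (by omega)]
  by_cases hL : L < 3
  · have : L - 2 = 0 := by omega
    rw [this] at hsub
    have h0 : ((SS L).filter fun σ => ¬ good σ = true).card = 0 := by
      rw [Finset.card_eq_zero]
      exact Finset.subset_empty.1 (by simpa using hsub)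
    rw [h0]; simp
  · have h1 : ((Finset.range (L - 2)).biUnion B).card ≤
        ∑ e ∈ Finset.range (L - 2), 2 ^ (L - 2 - 1 - e) := by
      refine le_trans Finset.card_biUnion_le (Finset.sum_le_sum fun e he => ?_)
      rw [Finset.mem_range] at he
      have := hB e (by omega)
      have e2 : L - (e + 3) = L - 2 - 1 - e := by omega
      rwa [e2] at this
    rw [Finset.sum_range_reflect (fun j => 2 ^ j)] at h1
    have h2 := sum_two_pow_le (L - 2)
    have h3 := Finset.card_le_card hsub
    have h4 : 2 ^ L = 4 * 2 ^ (L - 2) := by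
      obtain ⟨k, rfl⟩ : ∃ k, L = k + 2 := ⟨L - 2, by omega⟩
      simp [pow_succ]; ring
    rw [h4]
    omega

/-- König's lemma -/
theorem konig (T : List ℕ → Prop) (hT : ∀ σ τ, σ <+: τ → T τ → T σ) (σ₀ : List ℕ)
    (h : ∀ L, σ₀.length ≤ L → ∃ τ ∈ SS L, σ₀ <+: τ ∧ T τ) :
    ∃ x : ℕ → ℕ, (∀ n, x n ≤ 1) ∧ pfx x σ₀.length = σ₀ ∧ ∀ m, T (pfx x m) := by
  let K : ℕ → Set (ℕ → ℕ) := fun m =>
    {x | (∀ n, x n ≤ 1) ∧ pfx x σ₀.length = σ₀ ∧ T (pfx x m)}
  have hbin : IsCompact (Set.univ.pi fun _ : ℕ => (Set.Iic 1 : Set ℕ)) :=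
    isCompact_univ_pi fun _ => (Set.finite_Iic 1).isCompact
  have hclosed : ∀ (m : ℕ) (P : List ℕ → Prop), IsClosed {x : ℕ → ℕ | P (pfx x m)} := by
    intro m P
    have hc : Continuous (fun (x : ℕ → ℕ) (j : Fin m) => x j.val) :=
      continuous_pi fun j => continuous_apply _
    have : {x : ℕ → ℕ | P (pfx x m)} = (fun (x : ℕ → ℕ) (j : Fin m) => x j.val) ⁻¹'
        {y | P (List.ofFn y)} := rfl
    rw [this]
    exact (isClosed_discrete _).preimage hc
  have hKcl : ∀ m, IsClosed (K m) := by
    intro m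
    have : K m = (Set.univ.pi fun _ : ℕ => (Set.Iic 1 : Set ℕ)) ∩
        ({x | pfx x σ₀.length = σ₀} ∩ {x | T (pfx x m)}) := by
      ext x; simp [K, Pi.le_def]
    rw [this]
    exact hbin.isClosed.inter ((hclosed _ (fun σ => σ = σ₀)).inter (hclosed m T))
  have hne : (⋂ m, K m).Nonempty := by
    apply IsCompact.nonempty_iInter_of_sequence_nonempty_isCompact_isClosed K
    · rintro m x ⟨h1, h2, h3⟩
      exact ⟨h1, h2, hT _ _ (pfx_prefix x (Nat.le_succ m)) h3⟩
    · intro m
      obtain ⟨τ, hτ, hpre, hTτ⟩ := h (max m σ₀.length) (le_max_right _ _)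
      obtain ⟨hl, hb⟩ := mem_SS.1 hτ
      have hp : ∀ k, k ≤ τ.length → pfx (fun n => τ.getD n 0) k = τ.take k := by
        intro k hk
        apply List.ext_getElem?
        intro i
        by_cases hi : i < k
        · rw [pfx_getElem? _ hi, List.getElem?_take_of_lt hi, List.getD_eq_getElem?_getD,
            List.getElem?_eq_getElem (lt_of_lt_of_le hi hk)]
          simp
        · rw [List.getElem?_eq_none, List.getElem?_eq_none] <;> simp [pfx_length] <;> omega
      refine ⟨fun n => τ.getD n 0, ?_, ?_, ?_⟩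
      · intro n
        simp only
        by_cases hn : n < τ.length
        · rw [List.getD_eq_getElem _ _ hn]
          exact hb _ (List.getElem_mem hn)
        · rw [List.getD_eq_default _ _ (by omega)]; omega
      · rw [hp _ (by rw [hl]; exact le_max_right _ _)]
        obtain ⟨s, rfl⟩ := hpre
        simp
      · rw [hp _ (by rw [hl]; exact le_max_left _ _)]
        exact hT _ _ (List.take_prefix _ _) hTτ
    · refine hbin.of_isClosed_subset (hKcl 0) ?_
      rintro x ⟨h1, -, -⟩
      simpa [Pi.le_def] using h1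
    · exact hKcl
  obtain ⟨x, hx⟩ := hne
  rw [Set.mem_iInter] at hx
  exact ⟨x, (hx 0).1, (hx 0).2.1, fun m => (hx m).2.2⟩

theorem Q_nonempty : (PiC cQ).Nonempty := by
  obtain ⟨x, h1, -, h3⟩ := konig (fun σ => good σ = true) (fun σ τ h => good_prefix h) [] (by
    intro L _
    by_contra hcon
    push Not at hcon
    have h1 : ((SS L).filter fun σ => ¬ good σ = true) = SS L := by
      rw [Finset.filter_eq_self]
      intro σ hσ
      exact hcon σ hσ (List.nil_prefix)
    have h2 := bad_small L
    rw [h1, card_SS] at h2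
    have : 0 < 2 ^ L := by positivity
    omega)
  exact ⟨x, h1, fun m => good_pfx h3 m⟩

theorem wrong_small (L : ℕ) (W : Finset (List ℕ)) (hW : W ⊆ SS L)
    (hne : ∀ σ ∈ W, ∀ x ∈ PiC cQ, pfx x L ≠ σ) : 4 * W.card ≤ 2 ^ L := by
  have h1 : ∀ σ ∈ W, ∃ L', L ≤ L' ∧ ∀ τ ∈ SS L', σ <+: τ → good τ = true → False := by
    intro σ hσ
    by_contra hcon
    push Not at hcon
    have hl := (mem_SS.1 (hW hσ)).1
    obtain ⟨x, hx1, hx2, hx3⟩ := konig (fun σ => good σ = true) (fun σ τ h => good_prefix h) σ (by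
      intro L' hL'
      rw [hl] at hL'
      obtain ⟨τ, h1, h2, h3, -⟩ := hcon L' hL'
      exact ⟨τ, h1, h2, h3⟩)
    rw [hl] at hx2
    exact hne σ hσ x ⟨hx1, fun m => good_pfx hx3 m⟩ hx2
  choose! f hf1 hf2 using h1
  let L' := max L (W.sup f)
  have hLL' : L ≤ L' := le_max_left _ _
  have h2 : ∀ σ ∈ W, ∀ τ ∈ SS L', σ <+: τ → ¬ good τ = true := by
    intro σ hσ τ hτ hpre hg
    have hfL : f σ ≤ L' := le_trans (Finset.le_sup hσ) (le_max_right _ _)
    refine hf2 σ hσ (τ.take (f σ)) (take_mem_SS hτ hfL) ?_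
      (good_prefix (List.take_prefix _ _) hg)
    rw [List.prefix_take_iff]
    exact ⟨hpre, by rw [(mem_SS.1 (hW hσ)).1]; exact hf1 σ hσ⟩
  have h3 : W.card * 2 ^ (L' - L) ≤ ((SS L').filter fun σ => ¬ good σ = true).card := by
    rw [← card_SS (L' - L), ← Finset.card_product]
    apply Finset.card_le_card_of_injOn (fun p => p.1 ++ p.2)
    · rintro ⟨σ, ρ⟩ hp
      simp only [Finset.coe_product, Set.mem_prod, Finset.mem_coe] at hp
      simp only [Finset.coe_filter, Set.mem_ofPred_eq]
      have hσ := mem_SS.1 (hW hp.1)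
      have hρ := mem_SS.1 hp.2
      have hmem : σ ++ ρ ∈ SS L' := by
        rw [mem_SS]
        refine ⟨by simp [hσ.1, hρ.1]; omega, fun a ha => ?_⟩
        rcases List.mem_append.1 ha with h | h
        · exact hσ.2 a h
        · exact hρ.2 a h
      exact ⟨hmem, h2 σ hp.1 _ hmem (List.prefix_append _ _)⟩
    · rintro ⟨σ, ρ⟩ hp ⟨σ', ρ'⟩ hp' heq
      simp only [Finset.coe_product, Set.mem_prod, Finset.mem_coe] at hp hp' heq
      have hσ := mem_SS.1 (hW hp.1)
      have hσ' := mem_SS.1 (hW hp'.1)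
      have := List.append_inj heq (by rw [hσ.1, hσ'.1])
      rw [this.1, this.2]
  have h4 := bad_small L'
  have h5 : 2 ^ L' = 2 ^ L * 2 ^ (L' - L) := by
    rw [← pow_add]; congr 1; omega
  have h6 : 4 * W.card * 2 ^ (L' - L) ≤ 2 ^ L * 2 ^ (L' - L) := by
    rw [← h5]
    calc 4 * W.card * 2 ^ (L' - L) = 4 * (W.card * 2 ^ (L' - L)) := by ring
      _ ≤ _ := by omega
  exact Nat.le_of_mul_le_mul_right h6 (by positivity)

end Pool.Agent.H.MP_1220fe_lc
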