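import Mathlib
import Pool.Agent.H.MP_1220fe_lc.Vote

set_option autoImplicit false

namespace Pool.Agent.H.MP_1220fe_lc

theorem computable_list_map {α β σ : Type} [Primcodable α] [Primcodable β] [Primcodable σ]
    {f : α → List β} {g : α → β → σ} (hf : Computable f) (hg : Computable₂ g) :
    Computable fun a => (f a).map (g a) := by
  have hin : Computable (fun p : α × (ℕ × List σ) =>
      (Option.casesOn ((f p.1)[p.2.1]?) [] (fun b => [g p.1 b]) : List σ)) := by
    refine Computable.option_casesOn (o := fun p : α × (ℕ × List σ) => (f p.1)[p.2.1]?)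
      (f := fun _ => []) (g := fun p b => [g p.1 b]) ?_ (Computable.const []) ?_
    · exact Computable.list_getElem?.comp (hf.comp Computable.fst)
        (Computable.fst.comp Computable.snd)
    · refine Computable₂.mk ?_
      exact Computable.list_cons.comp
        (hg.comp (Computable.fst.comp Computable.fst) Computable.snd) (Computable.const [])
  have hrec : Computable (fun a => (Nat.rec [] (fun k IH => IH ++
      (Option.casesOn ((f a)[k]?) [] (fun b => [g a b]) : List σ)) (f a).length : List σ)) := by
    refine Computable.nat_rec (f := fun a => (f a).length) (g := fun _ => [])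
      (h := fun a (p : ℕ × List σ) => p.2 ++
        (Option.casesOn ((f a)[p.1]?) [] (fun b => [g a b]) : List σ))
      (Computable.list_length.comp hf) (Computable.const []) ?_
    refine Computable₂.mk ?_
    exact Computable.list_append.comp (Computable.snd.comp Computable.snd) hin
  refine hrec.of_eq fun a => ?_
  have key : ∀ k ≤ (f a).length, (Nat.rec [] (fun k IH => IH ++
      (Option.casesOn ((f a)[k]?) [] (fun b => [g a b]) : List σ)) k : List σ)
      = ((f a).take k).map (g a) := by
    intro k hk
    induction k with
    | zero => rfl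
    | succ k ih =>
      have hk' : k < (f a).length := hk
      simp only at ih ⊢
      rw [ih (by omega), List.getElem?_eq_getElem hk', List.take_succ_eq_append_getElem hk',
        List.map_append]
      rfl
  rw [key _ le_rfl, List.take_length]

/-- boolean implication data check -/
def okB (t : Bool × Bool × Bool) : Bool := !t.1 || (t.2.1 || t.2.2)

theorem primrec_all {α : Type} [Primcodable α] {p : α → Bool} (hp : Primrec p) :
    Primrec (fun l : List α => l.all p) := by
  have hh : Primrec₂ (fun (_ : List α) (q : α × Bool) => p q.1 && q.2) :=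
    Primrec₂.mk (Primrec.and.comp (hp.comp (Primrec.fst.comp Primrec.snd))
      (Primrec.snd.comp Primrec.snd))
  refine (Primrec.list_foldr Primrec.id (Primrec.const true) hh).of_eq fun l => ?_
  simp only [id]
  induction l with
  | nil => rfl
  | cons a l ih => rw [List.foldr_cons, ih, List.all_cons]

theorem primrec_countP {α : Type} [Primcodable α] {p : α → Bool} (hp : Primrec p) :
    Primrec (fun l : List α => l.countP p) := by
  have hh : Primrec₂ (fun (_ : List α) (q : α × ℕ) => cond (p q.1) (q.2 + 1) q.2) :=
    Primrec₂.mk (Primrec.cond (hp.comp (Primrec.fst.comp Primrec.snd))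
      (Primrec.succ.comp (Primrec.snd.comp Primrec.snd)) (Primrec.snd.comp Primrec.snd))
  refine (Primrec.list_foldr Primrec.id (Primrec.const 0) hh).of_eq fun l => ?_
  simp only [id]
  induction l with
  | nil => rfl
  | cons a l ih =>
    rw [List.foldr_cons, ih, List.countP_cons]
    cases p a <;> simp

theorem primrec_bins : Primrec bins := by
  have hin : Primrec (fun σ : List ℕ => [σ ++ [0], σ ++ [1]]) :=
    Primrec.list_cons.comp (Primrec.list_append.comp Primrec.id (Primrec.const [0]))
      (Primrec.list_cons.comp (Primrec.list_append.comp Primrec.id (Primrec.const [1]))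
        (Primrec.const []))
  have hstep : Primrec (fun l : List (List ℕ) => l.flatMap fun σ => [σ ++ [0], σ ++ [1]]) :=
    Primrec.list_flatMap Primrec.id (Primrec₂.mk (hin.comp Primrec.snd))
  have hh : Primrec₂ (fun (_ : ℕ) (l : List (List ℕ)) =>
      l.flatMap fun σ => [σ ++ [0], σ ++ [1]]) := Primrec₂.mk (hstep.comp Primrec.snd)
  refine (Primrec.nat_rec₁ [[]] hh).of_eq fun n => ?_
  induction n with
  | zero => rfl
  | succ n ih =>
    show (List.flatMap _ _) = _
    rw [bins, ih]

/-- **Majority vote.** -/
theorem vote (T F : List ℕ → ℕ → Bool) (hT : Computable₂ T) (hF : Computable₂ F)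
    (mT : ∀ σ τ n, σ <+: τ → T σ n = true → T τ n = true)
    (mF : ∀ σ τ n, σ <+: τ → F σ n = true → F τ n = true)
    (H1 : ∀ x ∈ PiC cQ, ∀ n, ∃ m, T (pfx x m) n = true ∨ F (pfx x m) n = true)
    (H2 : ∀ x ∈ PiC cQ, ∀ n ∈ A0, ∀ m, ¬ F (pfx x m) n = true)
    (H3 : ∀ x ∈ PiC cQ, ∀ n ∈ B0, ∀ m, ¬ T (pfx x m) n = true) : False := by
  -- the data at level `L` for input `n`
  let dat : ℕ → ℕ → List (Bool × Bool × Bool) := fun n L =>
    (bins L).map fun σ => (good σ, T σ n, F σ n)
  have hdat : Computable (fun p : ℕ × ℕ => dat p.1 p.2) := by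
    refine computable_list_map (f := fun p : ℕ × ℕ => bins p.2)
      (g := fun p σ => (good σ, T σ p.1, F σ p.1)) ?_ ?_
    · exact primrec_bins.to_comp.comp Computable.snd
    · refine Computable₂.mk ?_
      exact Computable.pair (primrec_good.to_comp.comp Computable.snd)
        (Computable.pair (hT.comp Computable.snd (Computable.fst.comp Computable.fst))
          (hF.comp Computable.snd (Computable.fst.comp Computable.fst)))
  have hex : ∀ n, ∃ L, (dat n L).all okB = true := by
    intro n
    by_contra hcon
    push Not at hcon
    obtain ⟨x, hx1, -, hx3⟩ := konig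
      (fun σ => good σ = true ∧ ¬ T σ n = true ∧ ¬ F σ n = true) (by
        rintro σ τ h ⟨h1, h2, h3⟩
        exact ⟨good_prefix h h1, fun h' => h2 (mT _ _ _ h h'), fun h' => h3 (mF _ _ _ h h')⟩)
      [] (by
        intro L _
        have := hcon L
        rw [Ne, List.all_eq_true] at this
        push Not at this
        obtain ⟨t, ht, hσ2⟩ := this
        obtain ⟨σ, hσ, rfl⟩ := List.mem_map.1 ht
        refine ⟨σ, by simpa [SS] using hσ, List.nil_prefix, ?_⟩
        revert hσ2
        simp only [okB]
        cases good σ <;> cases T σ n <;> cases F σ n <;> simp)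
    have hx : x ∈ PiC cQ := ⟨hx1, fun m => good_pfx (fun m => (hx3 m).1) m⟩
    obtain ⟨m, hm⟩ := H1 x hx n
    rcases hm with hm | hm
    · exact (hx3 m).2.1 hm
    · exact (hx3 m).2.2 hm
  have hokB : Primrec okB := Primrec.dom_finite _
  have hcp : ComputablePred (fun p : ℕ × ℕ => (dat p.1 p.2).all okB = true) := by
    refine ⟨inferInstance, ?_⟩
    have h1 : Computable (fun p : ℕ × ℕ => (dat p.1 p.2).all okB) :=
      (primrec_all hokB).to_comp.comp hdat
    exact h1.of_eq fun p => by simp
  have hLc : Computable (fun n => Nat.find (hex n)) := Computable.find hcp hex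
  let LL : ℕ → ℕ := fun n => Nat.find (hex n)
  have hLL : ∀ n, (dat n (LL n)).all okB = true := fun n => Nat.find_spec (hex n)
  let cG : ℕ → ℕ := fun n => (dat n (LL n)).countP fun t => t.1
  let cT : ℕ → ℕ := fun n => (dat n (LL n)).countP fun t => t.1 && t.2.1
  have hdn : Computable (fun n => dat n (LL n)) := hdat.comp (Computable.pair Computable.id hLc)
  have hcG : Computable cG :=
    (primrec_countP (p := fun t : Bool × Bool × Bool => t.1) (Primrec.dom_finite _)).to_comp.comp
      hdn
  have hcT : Computable cT :=
    (primrec_countP (p := fun t : Bool × Bool × Bool => t.1 && t.2.1)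
      (Primrec.dom_finite _)).to_comp.comp hdn
  have hh : Computable (fun n => decide (cG n ≤ cT n + cT n)) := by
    have h1 : Primrec (fun p : ℕ × ℕ => decide (p.1 ≤ p.2)) := by
      exact Primrec.nat_le.decide
    exact h1.to_comp.comp (Computable.pair hcG
      (Primrec.nat_add.to_comp.comp hcT hcT))
  have ecG : ∀ n, cG n = ((SS (LL n)).filter fun σ => good σ = true).card := by
    intro n
    simp only [cG, dat, List.countP_map, Function.comp_def]
    rw [countP_eq_card]
  have ecT : ∀ n, cT n = ((SS (LL n)).filter fun σ => (good σ && T σ n) = true).card := by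
    intro n
    simp only [cT, dat, List.countP_map, Function.comp_def]
    rw [countP_eq_card]
  have hsplit : ∀ n, ((SS (LL n)).filter fun σ => (good σ && T σ n) = true).card +
      ((SS (LL n)).filter fun σ => (good σ && !T σ n) = true).card =
      ((SS (LL n)).filter fun σ => good σ = true).card := by
    intro n
    rw [← Finset.card_union_of_disjoint]
    · congr 1
      ext σ
      simp only [Finset.mem_union, Finset.mem_filter]
      cases good σ <;> cases T σ n <;> simp
    · rw [Finset.disjoint_filter]
      intro σ _
      cases good σ <;> cases T σ n <;> simp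
  have hgood : ∀ n, ((SS (LL n)).filter fun σ => good σ = true).card +
      ((SS (LL n)).filter fun σ => ¬ good σ = true).card = 2 ^ (LL n) := by
    intro n
    rw [Finset.card_filter_add_card_filter_not, card_SS]
  have hpow : ∀ n, 0 < 2 ^ (LL n) := fun n => by positivity
  have hok : ∀ n σ, σ ∈ SS (LL n) → good σ = true → T σ n = true ∨ F σ n = true := by
    intro n σ hσ hg
    have := hLL n
    simp only [dat, List.all_map, List.all_eq_true, Function.comp, okB] at this
    have h2 := this σ (by simpa [SS] using hσ)
    rw [hg] at h2
    simpa using h2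
  refine insep _ hh ?_ ?_
  · intro n hn
    have hw : 4 * ((SS (LL n)).filter fun σ => (good σ && !T σ n) = true).card ≤ 2 ^ (LL n) := by
      refine wrong_small _ _ (Finset.filter_subset _ _) ?_
      intro σ hσ x hx hxσ
      simp only [Finset.mem_filter, Bool.and_eq_true, Bool.not_eq_true'] at hσ
      obtain ⟨hσS, hg, hnT⟩ := hσ
      rcases hok n σ hσS hg with h | h
      · rw [hnT] at h; exact Bool.noConfusion h
      · rw [← hxσ] at h
        exact H2 x hx n hn _ h
    rw [decide_eq_true_iff, ecG, ecT]
    have h1 := hsplit n
    have h2 := hgood n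
    have h3 := bad_small (LL n)
    omega
  · intro n hn
    have hw : 4 * ((SS (LL n)).filter fun σ => (good σ && T σ n) = true).card ≤ 2 ^ (LL n) := by
      refine wrong_small _ _ (Finset.filter_subset _ _) ?_
      intro σ hσ x hx hxσ
      simp only [Finset.mem_filter, Bool.and_eq_true] at hσ
      obtain ⟨_, _, hT'⟩ := hσ
      rw [← hxσ] at hT'
      exact H3 x hx n hn _ hT'
    rw [decide_eq_false_iff_not, ecG, ecT]
    have h1 := hsplit n
    have h2 := hgood n
    have h3 := bad_small (LL n)
    have h4 := hpow n
    omega

end Pool.Agent.H.MP_1220fe_lc
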