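import Mathlib
import Pool.Agent.H.MP_1220fe_lc.Grp
import Pool.Agent.H.MP_1220fe_lc.Maj

set_option autoImplicit false

namespace Pool.Agent.H.MP_1220fe_lc

/-- lookup of the value at a word -/
def look (τ : List ℕ) (w : Wd) : Option ℕ := τ[Encodable.encode w]?

theorem primrec_look : Primrec₂ look :=
  Primrec₂.mk (Primrec.list_getElem?.comp Primrec.fst (Primrec.encode.comp Primrec.snd))

/-- check of one pair (word, generator) -/
def chk (b : Bool) (τ : List ℕ) (n : ℕ) (q : Wd × Fin 36) : Bool :=
  (look τ q.1).isSome && ((look τ (q.1 ++ [(q.2, true)])).isSome &&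
    ((look τ (q.1 ++ Ww n q.2)).isSome &&
      (!(decide (look τ q.1 = look τ (q.1 ++ [(q.2, true)]))) &&
        (b == decide (look τ (q.1 ++ Ww n q.2) = look τ q.1)))))

/-- vote -/
def VV (b : Bool) (τ : List ℕ) (n : ℕ) : Bool :=
  decide (∃ k < τ.length,
    ((Encodable.decode k : Option (Wd × Fin 36)).elim false (chk b τ n)) = true)

theorem primrec_chk (b : Bool) :
    Primrec (fun p : (List ℕ × ℕ) × (Wd × Fin 36) => chk b p.1.1 p.1.2 p.2) := by
  have hτ : Primrec (fun p : (List ℕ × ℕ) × (Wd × Fin 36) => p.1.1) :=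
    Primrec.fst.comp Primrec.fst
  have hu : Primrec (fun p : (List ℕ × ℕ) × (Wd × Fin 36) => p.2.1) :=
    Primrec.fst.comp Primrec.snd
  have hs : Primrec (fun p : (List ℕ × ℕ) × (Wd × Fin 36) => p.2.2) :=
    Primrec.snd.comp Primrec.snd
  have hn : Primrec (fun p : (List ℕ × ℕ) × (Wd × Fin 36) => p.1.2) :=
    Primrec.snd.comp Primrec.fst
  have h1 : Primrec (fun p : (List ℕ × ℕ) × (Wd × Fin 36) => look p.1.1 p.2.1) :=
    primrec_look.comp hτ hu
  have h2 : Primrec (fun p : (List ℕ × ℕ) × (Wd × Fin 36) =>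
      look p.1.1 (p.2.1 ++ [(p.2.2, true)])) := by
    have h : Primrec (fun s : Fin 36 => ([(s, true)] : Wd)) := Primrec.dom_finite _
    exact primrec_look.comp hτ (Primrec.list_append.comp hu (h.comp hs))
  have h3 : Primrec (fun p : (List ℕ × ℕ) × (Wd × Fin 36) =>
      look p.1.1 (p.2.1 ++ Ww p.1.2 p.2.2)) :=
    primrec_look.comp hτ (Primrec.list_append.comp hu (primrec_Ww.comp (Primrec.pair hn hs)))
  have heq : Primrec₂ (fun a b : Option ℕ => decide (a = b)) := Primrec.eq.decide
  have hbeq : Primrec₂ (fun a b : Bool => a == b) := Primrec.dom_bool₂ _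
  refine Primrec.and.comp (Primrec.option_isSome.comp h1) (Primrec.and.comp
    (Primrec.option_isSome.comp h2) (Primrec.and.comp (Primrec.option_isSome.comp h3)
    (Primrec.and.comp (Primrec.not.comp (heq.comp h1 h2))
      (hbeq.comp (Primrec.const b) (heq.comp h3 h1)))))

theorem primrec_VV (b : Bool) : Primrec₂ (VV b) := by
  have h0 : Primrec₂ (fun (p : ℕ × (List ℕ × ℕ)) (q : Wd × Fin 36) => chk b p.2.1 p.2.2 q) :=
    Primrec₂.mk ((primrec_chk b).comp
      (Primrec.pair (Primrec.snd.comp Primrec.fst) Primrec.snd))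
  have h1 : Primrec (fun p : ℕ × (List ℕ × ℕ) =>
      ((Encodable.decode p.1 : Option (Wd × Fin 36)).elim false (chk b p.2.1 p.2.2))) := by
    refine (Primrec.option_casesOn (o := fun p : ℕ × (List ℕ × ℕ) =>
      (Encodable.decode p.1 : Option (Wd × Fin 36))) (f := fun _ => false)
      (g := fun p q => chk b p.2.1 p.2.2 q) (Primrec.decode.comp Primrec.fst)
      (Primrec.const false) h0).of_eq ?_
    rintro ⟨k, τ, n⟩
    simp only
    cases (Encodable.decode k : Option (Wd × Fin 36)) <;> rfl
  have h2 : PrimrecRel (fun (k : ℕ) (y : List ℕ × ℕ) =>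
      ((Encodable.decode k : Option (Wd × Fin 36)).elim false (chk b y.1 y.2)) = true) :=
    Primrec.eq.comp h1 (Primrec.const true)
  have h3 := bex_lt h2
  have h4 : PrimrecPred (fun y : List ℕ × ℕ => ∃ k < y.1.length,
      ((Encodable.decode k : Option (Wd × Fin 36)).elim false (chk b y.1 y.2)) = true) :=
    PrimrecRel.comp h3 (Primrec.list_length.comp Primrec.fst) Primrec.id
  exact primrecPred_iff_primrec_decide.1 h4

theorem look_mono {τ τ' : List ℕ} (h : τ <+: τ') {w : Wd} {a : ℕ} (ha : look τ w = some a) :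
    look τ' w = some a := by
  obtain ⟨s, rfl⟩ := h
  unfold look at ha ⊢
  rw [List.getElem?_append_left]
  · exact ha
  · by_contra hcon
    rw [List.getElem?_eq_none (by omega)] at ha
    exact absurd ha (by simp)

theorem chk_mono {b : Bool} {τ τ' : List ℕ} (h : τ <+: τ') {n : ℕ} {q : Wd × Fin 36}
    (hc : chk b τ n q = true) : chk b τ' n q = true := by
  unfold chk at hc ⊢
  simp only [Bool.and_eq_true] at hc
  obtain ⟨h1, h2, h3, h4⟩ := hc
  obtain ⟨a1, e1⟩ := Option.isSome_iff_exists.1 h1
  obtain ⟨a2, e2⟩ := Option.isSome_iff_exists.1 h2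
  obtain ⟨a3, e3⟩ := Option.isSome_iff_exists.1 h3
  rw [look_mono h e1, look_mono h e2, look_mono h e3]
  rw [e1, e2, e3] at h4
  simpa using h4

theorem VV_mono {b : Bool} {τ τ' : List ℕ} (h : τ <+: τ') {n : ℕ}
    (hc : VV b τ n = true) : VV b τ' n = true := by
  unfold VV at hc ⊢
  rw [decide_eq_true_iff] at hc ⊢
  obtain ⟨k, hk, hc⟩ := hc
  refine ⟨k, lt_of_lt_of_le hk h.length_le, ?_⟩
  cases hd : (Encodable.decode k : Option (Wd × Fin 36)) with
  | none => rw [hd] at hc; exact Bool.noConfusion hc
  | some q => rw [hd] at hc; exact chk_mono h hc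

theorem VV_iff {b : Bool} {τ : List ℕ} {n : ℕ} (hc : VV b τ n = true) :
    ∃ q, chk b τ n q = true := by
  unfold VV at hc
  rw [decide_eq_true_iff] at hc
  obtain ⟨k, hk, hc⟩ := hc
  cases hd : (Encodable.decode k : Option (Wd × Fin 36)) with
  | none => rw [hd] at hc; exact Bool.noConfusion hc
  | some q => rw [hd] at hc; exact ⟨q, hc⟩

theorem VV_of {b : Bool} {τ : List ℕ} {n : ℕ} {q : Wd × Fin 36} (hc : chk b τ n q = true)
    (hl : Encodable.encode q < τ.length) : VV b τ n = true := by
  unfold VV
  rw [decide_eq_true_iff]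
  exact ⟨_, hl, by rw [Encodable.encodek]; exact hc⟩

/-- no functional maps the class `Q` into codes of nonconstant configurations -/
theorem no_functional {k : ℕ} (g : List ℕ → List ℕ) (hg : Computable g)
    (hmono : ∀ σ τ : List ℕ, σ <+: τ → g σ <+: g τ)
    (hy : ∀ x ∈ PiC cQ, ∃ (xx : GG → Fin k) (y : ℕ → ℕ), (∃ h h' : GG, xx h ≠ xx h') ∧
      (∀ w : Wd, y (Encodable.encode w) = (xx (ev gens w)).val) ∧
      ∀ N : ℕ, ∃ m : ℕ, ∀ i < N, (g (pfx x m))[i]? = some (y i)) : False := by
  have hval : ∀ (x y : ℕ → ℕ), (∀ N : ℕ, ∃ m : ℕ, ∀ i < N, (g (pfx x m))[i]? = some (y i)) →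
      ∀ m i v, (g (pfx x m))[i]? = some v → v = y i := by
    intro x y hN m i v hv
    obtain ⟨m', hm'⟩ := hN (i + 1)
    have h1 := hm' i (by omega)
    rcases le_total m m' with h | h
    · obtain ⟨s, hs⟩ := hmono _ _ (pfx_prefix x h)
      rw [← hs, List.getElem?_append_left, hv] at h1
      · exact Option.some_injective _ h1
      · by_contra hcon
        rw [List.getElem?_eq_none (by omega)] at hv
        exact absurd hv (by simp)
    · obtain ⟨s, hs⟩ := hmono _ _ (pfx_prefix x h)
      rw [← hs, List.getElem?_append_left, h1] at hv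
      · exact (Option.some_injective _ hv).symm
      · by_contra hcon
        rw [List.getElem?_eq_none (by omega)] at h1
        exact absurd h1 (by simp)
  refine vote (fun σ n => VV true (g σ) n) (fun σ n => VV false (g σ) n) ?_ ?_ ?_ ?_ ?_ ?_ ?_
  · exact Computable₂.mk ((primrec_VV true).to_comp.comp (hg.comp Computable.fst) Computable.snd)
  · exact Computable₂.mk ((primrec_VV false).to_comp.comp (hg.comp Computable.fst) Computable.snd)
  · intro σ τ n h h'; exact VV_mono (hmono _ _ h) h'
  · intro σ τ n h h'; exact VV_mono (hmono _ _ h) h'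
  · intro x hx n
    obtain ⟨xx, y, ⟨h1, h2, hne⟩, hyw, hN⟩ := hy x hx
    -- a word and a generator where the configuration changes
    have hstep : ∃ (u : Wd) (s : Fin 36), xx (ev gens u) ≠ xx (ev gens u * gens s) := by
      by_contra hcon
      push Not at hcon
      have hsurj : ∀ a : GG, ∃ u : Wd, ev gens u = a := by
        intro a
        obtain ⟨b, rfl⟩ := PresentedGroup.mk_surjective rels a
        exact ⟨b.toWord, by rw [ev_gens, FreeGroup.mk_toWord]⟩
      have hall : ∀ b : GG, ∀ a : GG, xx (a * b) = xx a := by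
        intro b
        have hb : b ∈ Subgroup.closure (Set.range gens) := by rw [closure_gens]; trivial
        induction hb using Subgroup.closure_induction with
        | mem b hb =>
          obtain ⟨s, rfl⟩ := hb
          intro a
          obtain ⟨u, rfl⟩ := hsurj a
          exact (hcon u s).symm
        | one => intro a; rw [mul_one]
        | mul b c _ _ ihb ihc => intro a; rw [← mul_assoc, ihc, ihb]
        | inv b _ ihb => intro a; rw [← ihb (a * b⁻¹), inv_mul_cancel_right]
      apply hne
      rw [← hall (h1⁻¹ * h2) h1, mul_inv_cancel_left]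
    obtain ⟨u, s, hus⟩ := hstep
    obtain ⟨m, hm⟩ := hN (Encodable.encode u + Encodable.encode (u ++ [(s, true)]) +
      Encodable.encode (u ++ Ww n s) + Encodable.encode (u, s) + 1)
    refine ⟨m, ?_⟩
    have e1 : look (g (pfx x m)) u = some (y (Encodable.encode u)) := hm _ (by omega)
    have e2 : look (g (pfx x m)) (u ++ [(s, true)])
        = some (y (Encodable.encode (u ++ [(s, true)]))) := hm _ (by omega)
    have e3 : look (g (pfx x m)) (u ++ Ww n s)
        = some (y (Encodable.encode (u ++ Ww n s))) := hm _ (by omega)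
    have hlen : Encodable.encode (u, s) < (g (pfx x m)).length := by
      have := hm (Encodable.encode (u, s)) (by omega)
      by_contra hcon
      rw [List.getElem?_eq_none (by omega)] at this
      exact absurd this (by simp)
    have hne2 : y (Encodable.encode u) ≠ y (Encodable.encode (u ++ [(s, true)])) := by
      rw [hyw, hyw, ev_append]
      intro h
      apply hus
      have h2 : ev gens [(s, true)] = gens s := by simp [ev]
      rw [h2] at h
      exact Fin.ext h
    by_cases hb : y (Encodable.encode (u ++ Ww n s)) = y (Encodable.encode u)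
    · left
      refine VV_of (q := (u, s)) ?_ hlen
      simp only [chk, e1, e2, e3]
      simp [hne2, hb]
    · right
      refine VV_of (q := (u, s)) ?_ hlen
      simp only [chk, e1, e2, e3]
      simp [hne2, hb]
  · intro x hx n hn m hV
    obtain ⟨xx, y, -, hyw, hN⟩ := hy x hx
    obtain ⟨⟨u, s⟩, hq⟩ := VV_iff hV
    unfold chk at hq
    simp only [Bool.and_eq_true] at hq
    obtain ⟨h1, h2, h3, -, h4⟩ := hq
    obtain ⟨a1, e1⟩ := Option.isSome_iff_exists.1 h1
    obtain ⟨a3, e3⟩ := Option.isSome_iff_exists.1 h3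
    have f1 := hval x y hN m _ _ e1
    have f3 := hval x y hN m _ _ e3
    rw [hyw] at f1 f3
    rw [ev_append, ev_A n hn, mul_one] at f3
    rw [e1, e3, f1, f3] at h4
    simp at h4
  · intro x hx n hn m hV
    obtain ⟨xx, y, -, hyw, hN⟩ := hy x hx
    obtain ⟨⟨u, s⟩, hq⟩ := VV_iff hV
    unfold chk at hq
    simp only [Bool.and_eq_true] at hq
    obtain ⟨h1, h2, h3, h5, h4⟩ := hq
    obtain ⟨a1, e1⟩ := Option.isSome_iff_exists.1 h1
    obtain ⟨a2, e2⟩ := Option.isSome_iff_exists.1 h2
    obtain ⟨a3, e3⟩ := Option.isSome_iff_exists.1 h3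
    have f2 := hval x y hN m _ _ e2
    have f3 := hval x y hN m _ _ e3
    rw [hyw] at f2 f3
    rw [ev_append, ev_B n hn] at f3
    rw [ev_append] at f2
    have h6 : ev gens [(s, true)] = gens s := by simp [ev]
    rw [h6] at f2
    have h7 : a3 = a2 := by rw [f2, f3]
    rw [e1, e2] at h5
    rw [e1, e3, h7] at h4
    simp only [beq_iff_eq, Option.some.injEq, Bool.not_eq_true'] at h4 h5
    have h8 : a2 = a1 := by simpa using h4
    rw [h8] at h5
    simp at h5

/-- a computable point is not mapped into `Q` -/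
theorem no_computable_point (y : ℕ → ℕ) (hy : Computable y) (f : List ℕ → List ℕ)
    (hf : Computable f) (hmono : ∀ σ τ : List ℕ, σ <+: τ → f σ <+: f τ)
    (x : ℕ → ℕ) (hx : x ∈ PiC cQ)
    (hN : ∀ n : ℕ, ∃ m : ℕ, ∀ i < n, (f (pfx y m))[i]? = some (x i)) : False := by
  apply not_computable_of_mem x hx
  have hpfx : Computable (fun m => pfx y m) := by
    have h1 : Computable (fun m => (List.range m).map y) :=
      computable_list_map (f := fun m : ℕ => List.range m) (g := fun _ i => y i)
        Primrec.list_range.to_comp (Computable₂.mk (hy.comp Computable.snd))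
    refine h1.of_eq fun m => ?_
    apply List.ext_getElem?
    intro i
    by_cases hi : i < m
    · rw [pfx_getElem? y hi]; simp [hi]
    · rw [List.getElem?_eq_none (by simp; omega), List.getElem?_eq_none (by simp [pfx]; omega)]
  have hp : Partrec (fun i : ℕ => Nat.rfindOpt (fun m => (f (pfx y m))[i]?)) := by
    apply Partrec.rfindOpt
    refine Computable₂.mk ?_
    exact Computable.list_getElem?.comp (hf.comp (hpfx.comp Computable.snd)) Computable.fst
  refine hp.of_eq_tot fun i => ?_
  have hdom : (Nat.rfindOpt (fun m => (f (pfx y m))[i]?)).Dom := by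
    rw [Nat.rfindOpt_dom]
    obtain ⟨m, hm⟩ := hN (i + 1)
    exact ⟨m, x i, hm i (by omega)⟩
  obtain ⟨v, hv⟩ := Part.dom_iff_mem.1 hdom
  obtain ⟨m, hm⟩ := Nat.rfindOpt_spec hv
  have hm : (f (pfx y m))[i]? = some v := hm
  obtain ⟨m', hm'⟩ := hN (i + 1)
  have h1 := hm' i (by omega)
  have : v = x i := by
    rcases le_total m m' with h | h
    · obtain ⟨s, hs⟩ := hmono _ _ (pfx_prefix y h)
      rw [← hs, List.getElem?_append_left, hm] at h1
      · exact Option.some_injective _ h1
      · by_contra hcon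
        rw [List.getElem?_eq_none (by omega)] at hm
        exact absurd hm (by simp)
    · obtain ⟨s, hs⟩ := hmono _ _ (pfx_prefix y h)
      rw [← hs, List.getElem?_append_left, h1] at hm
      · exact (Option.some_injective _ hm).symm
      · by_contra hcon
        rw [List.getElem?_eq_none (by omega)] at h1
        exact absurd h1 (by simp)
  rw [← this]; exact hv

end Pool.Agent.H.MP_1220fe_lc
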